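import Pool.Agent.Y208.BH.Stm2

set_option autoImplicit false

namespace Pool.Agent.Y845.BH

open Pool.SF

section
variable {n : ℕ} (rels : Finset (FreeGroup (Fin n)))

/-- number of letters -/
abbrev mm (n : ℕ) : ℕ := Fintype.card (Fin n × Bool)

/-- letters -/
noncomputable def ee (n : ℕ) : Fin (mm n) ≃ Fin n × Bool := (Fintype.equivFin (Fin n × Bool)).symm

/-- value of a word -/
noncomputable def gv (w : List (Fin (mm n))) : PresentedGroup (rels : Set (FreeGroup (Fin n))) :=
  PresentedGroup.mk (rels : Set (FreeGroup (Fin n))) (FreeGroup.mk (w.map (ee n)))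

/-- generators -/
noncomputable def aa (k : Fin (mm n)) :
    MonoidAlgebra (ZMod 2) (PresentedGroup (rels : Set (FreeGroup (Fin n)))) :=
  MonoidAlgebra.of (ZMod 2) _ (gv rels [k])

theorem gv_append (u v : List (Fin (mm n))) : gv rels (u ++ v) = gv rels u * gv rels v := by
  simp only [gv, List.map_append]
  rw [← map_mul, FreeGroup.mul_mk]

theorem gv_nil : gv rels ([] : List (Fin (mm n))) = 1 := by
  simp only [gv, List.map_nil]
  exact map_one _

theorem prod_aa (w : List (Fin (mm n))) :
    (w.map (aa rels)).prod = MonoidAlgebra.of (ZMod 2) _ (gv rels w) := by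
  induction w with
  | nil => rw [gv_nil, map_one]; rfl
  | cons k w ih =>
    rw [List.map_cons, List.prod_cons, ih, show k :: w = [k] ++ w from rfl, gv_append, map_mul]
    rfl

theorem gv_surj (g : PresentedGroup (rels : Set (FreeGroup (Fin n)))) : ∃ w, gv rels w = g := by
  obtain ⟨x, rfl⟩ := PresentedGroup.mk_surjective _ g
  refine ⟨x.toWord.map (ee n).symm, ?_⟩
  simp only [gv, List.map_map]
  have : (ee n) ∘ (ee n).symm = id := by funext y; simp
  rw [this, List.map_id, FreeGroup.mk_toWord]

theorem adjoin_top : Algebra.adjoin (ZMod 2) (Set.range (aa rels)) = ⊤ := by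
  rw [eq_top_iff]
  intro x _
  induction x using MonoidAlgebra.induction_on with
  | of g =>
    obtain ⟨w, rfl⟩ := gv_surj rels g
    rw [← prod_aa]
    apply Subalgebra.list_prod_mem
    intro y hy
    rw [List.mem_map] at hy
    obtain ⟨k, _, rfl⟩ := hy
    exact Algebra.subset_adjoin ⟨k, rfl⟩
  | add f g hf hg => exact Subalgebra.add_mem _ (hf trivial) (hg trivial)
  | smul r f hf => exact Subalgebra.smul_mem _ (hf trivial) _

theorem lin_indep (Bs : Set (List (Fin (mm n)))) (h : Set.InjOn (gv rels) Bs) :
    LinearIndependent (ZMod 2) (fun w : Bs => (w.1.map (aa rels)).prod) := by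
  have h1 : LinearIndependent (ZMod 2)
      (fun g : PresentedGroup (rels : Set (FreeGroup (Fin n))) => MonoidAlgebra.of (ZMod 2) _ g) := by
    refine LinearIndependent.of_comp (MonoidAlgebra.coeffLinearEquiv (ZMod 2)).toLinearMap ?_
    exact Finsupp.linearIndependent_single_one (ZMod 2) _
  have h2 := h1.comp (fun w : Bs => gv rels w.1) (fun x y hxy => Subtype.ext (h x.2 y.2 hxy))
  convert h2 using 1
  funext w
  exact prod_aa rels w.1

/-- formal inverse of a word -/
theorem eq_iff (u v : List (Fin (mm n))) : gv rels u = gv rels v ↔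
    PresentedGroup.mk (rels : Set (FreeGroup (Fin n)))
      (FreeGroup.mk (u.map (ee n) ++ FreeGroup.invRev (v.map (ee n)))) = 1 := by
  rw [← FreeGroup.mul_mk, ← FreeGroup.inv_mk, map_mul, map_inv]
  exact (mul_inv_eq_one).symm

theorem ee_prim : Primrec (ee n) := Primrec.dom_finite _

theorem map_prim : Primrec (fun w : List (Fin (mm n)) => w.map (ee n)) :=
  Primrec.list_map Primrec.id (ee_prim.comp Primrec.snd).to₂

theorem inv_prim : Primrec (fun w : List (Fin n × Bool) => FreeGroup.invRev w) := by
  unfold FreeGroup.invRev
  refine Primrec.list_reverse.comp (Primrec.list_map Primrec.id ?_)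
  have : Primrec (fun g : Fin n × Bool => (g.1, !g.2)) := Primrec.dom_finite _
  exact (this.comp Primrec.snd).to₂

/-- the search predicate -/
noncomputable def phi (f : List (Fin n × Bool) → Bool) (w : List (Fin (mm n))) (k : ℕ) : Bool :=
  ((Encodable.decode k : Option (List (Fin (mm n)))).map
    (fun w' => f (w.map (ee n) ++ FreeGroup.invRev (w'.map (ee n))))).getD false

theorem phi_comp {f : List (Fin n × Bool) → Bool} (hf : Computable f) : Computable₂ (phi f) := by
  unfold phi
  refine Computable.option_getD (Computable.option_map (Computable.decode.comp Computable.snd) ?_)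
    (Computable.const false)
  refine hf.comp ?_
  have h1 : Primrec (fun p : (List (Fin (mm n)) × ℕ) × List (Fin (mm n)) => p.1.1.map (ee n)) :=
    map_prim.comp (Primrec.fst.comp Primrec.fst)
  have h2 : Primrec (fun p : (List (Fin (mm n)) × ℕ) × List (Fin (mm n)) =>
      FreeGroup.invRev (p.2.map (ee n))) := inv_prim.comp (map_prim.comp Primrec.snd)
  exact (Primrec.list_append.comp h1 h2).to_comp


theorem grp (f : List (Fin n × Bool) → Bool) (hf : Computable f)
    (hp : ∀ w, f w = true ↔
      PresentedGroup.mk (rels : Set (FreeGroup (Fin n))) (FreeGroup.mk w) = 1) :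
    HasRecBasis (ZMod 2) (aa rels) := by
  classical
  have hphi : ∀ w k, phi f w k = true ↔ ∃ w', (Encodable.decode k : Option (List (Fin (mm n)))) = some w'
      ∧ gv rels w = gv rels w' := by
    intro w k
    unfold phi
    cases h : (Encodable.decode k : Option (List (Fin (mm n)))) with
    | none => simp
    | some w' =>
      simp only [Option.map_some, Option.getD_some, hp, Option.some.injEq, exists_eq_left']
      exact (eq_iff rels w w').symm
  have hex : ∀ w, ∃ k, phi f w k = true := fun w =>
    ⟨Encodable.encode w, (hphi w _).mpr ⟨w, Encodable.encodek w, rfl⟩⟩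
  let c : List (Fin (mm n)) → ℕ := fun w => Nat.find (hex w)
  have hc : Computable c := by
    have h1 : Partrec (fun w : List (Fin (mm n)) => Nat.rfind (fun k => Part.some (phi f w k))) :=
      Partrec.rfind (phi_comp hf).partrec₂
    refine h1.of_eq (fun w => ?_)
    refine Part.eq_some_iff.mpr (Nat.mem_rfind.mpr ⟨?_, ?_⟩)
    · simpa using (Nat.find_spec (hex w)).symm
    · intro k hk
      have := Nat.find_min (hex w) hk
      simp only [Part.mem_some_iff]
      simpa using this
  let cw : List (Fin (mm n)) → List (Fin (mm n)) := fun w =>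
    ((Encodable.decode (c w) : Option (List (Fin (mm n))))).getD []
  have hcw : Computable cw :=
    Computable.option_getD (Computable.decode.comp hc) (Computable.const [])
  have hgcw : ∀ w, gv rels (cw w) = gv rels w := by
    intro w
    obtain ⟨w', h1, h2⟩ := (hphi w _).mp (Nat.find_spec (hex w))
    have : cw w = w' := by
      simp only [cw, c]
      rw [h1]; rfl
    rw [this, h2]
  have hcong : ∀ w w', gv rels w = gv rels w' → cw w = cw w' := by
    intro w w' h
    have : c w = c w' := by
      simp only [c]
      congr 1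
      funext k
      rw [eq_iff_iff, hphi, hphi, h]
    simp only [cw, this]
  refine ⟨{w | cw w = w}, fun w => (1, [((1 : ℤ), cw w)]), ?_, ?_, ?_, ?_⟩
  · have h1 : Computable (fun w => decide (cw w = w)) :=
      (Primrec.eq (α := List (Fin (mm n)))).decide.to_comp.comp hcw Computable.id
    exact h1.computablePred
  · refine (Computable.const 1).pair ?_
    exact Computable.list_cons.comp ((Computable.const (1 : ℤ)).pair hcw) (Computable.const [])
  · apply lin_indep
    intro w hw w' hw' h
    rw [Set.mem_ofPred_eq] at hw hw'
    rw [← hw, ← hw']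
    exact hcong _ _ h
  · intro w
    refine ⟨by simp, ?_, ?_⟩
    · intro p hp
      rw [List.mem_singleton] at hp
      subst hp
      change cw (cw w) = cw w
      exact hcong _ _ (hgcw w)
    · simp [prod_aa, hgcw]

end

theorem t_GRP : Y208.BH.S_GRP := by
  intro n rels h
  obtain ⟨f, hf, hp⟩ := ComputablePred.computable_iff.mp h
  exact ⟨mm n, aa rels, adjoin_top rels, grp rels f hf (fun w => by
    have := congrFun hp w
    rw [this])⟩

end Pool.Agent.Y845.BH
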